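import Mathlib

/-!
# MP_583455_co : the palindrome domino game — basic definitions for Bob's strategy

Cells are integers.  `col z = 0` means uncoloured; otherwise `col z` is the colour.
`own z = true` means the stone on `z` was placed by Bob.
-/

namespace MP583455

open Classical


/-- A board. -/
structure Bd where
  col : ℤ → ℕ
  own : ℤ → Bool

/-- put a stone -/
def Bd.put (b : Bd) (y : ℤ) (a : ℕ) (o : Bool) : Bd :=
  ⟨fun z => if z = y then a else b.col z, fun z => if z = y then o else b.own z⟩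

@[simp] lemma put_col (b : Bd) (y : ℤ) (a : ℕ) (o : Bool) (z : ℤ) :
    (b.put y a o).col z = if z = y then a else b.col z := rfl

@[simp] lemma put_own (b : Bd) (y : ℤ) (a : ℕ) (o : Bool) (z : ℤ) :
    (b.put y a o).own z = if z = y then o else b.own z := rfl

/-- Bob's isolated middle stone: both neighbours empty, both next-neighbours coloured. -/
def Mid (b : Bd) (z : ℤ) : Prop :=
  b.col z ≠ 0 ∧ b.own z = true ∧ b.col (z - 1) = 0 ∧ b.col (z + 1) = 0 ∧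
    b.col (z - 2) ≠ 0 ∧ b.col (z + 2) ≠ 0

/-- Safe position (Alice to move). -/
structure Safe (b : Bd) : Prop where
  par : ∀ l r : ℤ, l < r → b.col l ≠ 0 → b.col l = b.col r → (r - l) % 2 = 0 →
    (∀ z, l < z → z < r → b.col z = 0) → False
  finR : ∀ z, b.col z ≠ 0 → b.col (z + 1) = 0 →
    (b.col (z - 1) ≠ 0 ∧ b.col (z - 1) ≠ b.col z) ∨ Mid b z
  finL : ∀ z, b.col z ≠ 0 → b.col (z - 1) = 0 →
    (b.col (z + 1) ≠ 0 ∧ b.col (z + 1) ≠ b.col z) ∨ Mid b z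

/-- No three equal consecutive stones. -/
def NoTri (b : Bd) : Prop :=
  ∀ z, b.col z ≠ 0 → b.col z = b.col (z + 1) → b.col (z + 1) = b.col (z + 2) → False

/-- number of coloured cells strictly between `l` and `r` -/
noncomputable def cnt (b : Bd) (l r : ℤ) : ℕ :=
  ((Finset.Ioo l r).filter (fun z => b.col z ≠ 0)).card

/-- `v` and `w` are near: fewer than `(100000000 : ℕ)` coloured cells strictly between. -/
def Near (b : Bd) (v w : ℤ) : Prop := cnt b (min v w) (max v w) < (100000000 : ℕ)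

/-- colour `κ` is fresh at `v` -/
def Fr (b : Bd) (v : ℤ) (κ : ℕ) : Prop :=
  κ ≠ 0 ∧ ∀ w, b.col w ≠ 0 → Near b v w → b.col w ≠ κ

/-- placing any fresh stone of Bob on `v` gives a safe position -/
def SafeR (b : Bd) (v : ℤ) : Prop := ∀ κ, Fr b v κ → Safe (b.put v κ true)

/-- no mismatch within the window of radius `(10000000 : ℤ)` around `c` -/
def Alive (b : Bd) (c : ℤ) : Prop :=
  ∀ z, c - (10000000 : ℤ) ≤ z → z ≤ c + (10000000 : ℤ) → b.col z ≠ 0 → b.col (2 * c - z) ≠ 0 →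
    b.col z = b.col (2 * c - z)

/-- half-cell of `c`: an empty cell of the window, not `c`, whose mirror is coloured -/
def Half (b : Bd) (c z : ℤ) : Prop :=
  z ≠ c ∧ c - (10000000 : ℤ) ≤ z ∧ z ≤ c + (10000000 : ℤ) ∧ b.col z = 0 ∧ b.col (2 * c - z) ≠ 0

/-- half-cell with a coloured neighbour (killable) -/
def HK (b : Bd) (c k : ℤ) : Prop :=
  Half b c k ∧ (b.col (k - 1) ≠ 0 ∨ b.col (k + 1) ≠ 0)

/-- half-cell connected by consecutive half-cells to a killable one -/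
def Acc (b : Bd) (c z : ℤ) : Prop :=
  ∃ k, HK b c k ∧ ∀ j, min z k ≤ j → j ≤ max z k → Half b c j

/-- exactly one accessible half-cell -/
def One (b : Bd) (c : ℤ) : Prop :=
  (∃ z, Acc b c z) ∧ ∀ z w, Acc b c z → Acc b c w → z = w

/-- number of Bob stones matched by their mirror -/
noncomputable def rr (b : Bd) (c : ℤ) : ℕ :=
  ((Finset.Icc (c - (10000000 : ℤ)) (c + (10000000 : ℤ))).filter
    (fun w => w ≠ c ∧ b.col w ≠ 0 ∧ b.own w = true ∧ b.col w = b.col (2 * c - w))).card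

/-- number of half-cells -/
noncomputable def bb (b : Bd) (c : ℤ) : ℕ :=
  ((Finset.Icc (c - (10000000 : ℤ)) (c + (10000000 : ℤ))).filter (fun z => Half b c z)).card

/-- the exceptional zone of `c` -/
def Zone (c z : ℤ) : Prop :=
  (z - c).natAbs ≤ 203 ∨ (9999797 ≤ (z - c).natAbs ∧ (z - c).natAbs ≤ 10000203)

/-- tags of Alice stones: what kind of reply was given -/
inductive Tag where
  | loc : Tag
  | far : Tag
  | nreg : ℤ → Tag
  | ctr : ℤ → Tag
  | kill : ℤ → Tag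
  | fixp : ℤ → Tag

/-- state of the strategy -/
structure St where
  b : Bd
  tm : ℤ → ℕ
  now : ℕ
  tag : ℤ → Tag
  /-- mark time, `0` = unmarked -/
  mt : ℤ → ℕ
  /-- region radius, `0` = no region -/
  rg : ℤ → ℤ

def stA (b : Bd) (z : ℤ) : Prop := b.col z ≠ 0 ∧ b.own z = false
def stB (b : Bd) (z : ℤ) : Prop := b.col z ≠ 0 ∧ b.own z = true

/-- inside the window of `c` -/
def InW (c z : ℤ) : Prop := c - (10000000 : ℤ) ≤ z ∧ z ≤ c + (10000000 : ℤ)

/-- hot centre without region -/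
def Hot0 (s : St) (c : ℤ) : Prop := s.mt c ≠ 0 ∧ Alive s.b c ∧ s.rg c = 0
/-- hot centre with a region -/
def HotR (s : St) (c : ℤ) : Prop := s.mt c ≠ 0 ∧ Alive s.b c ∧ s.rg c ≠ 0
/-- open region of `c` -/
def InI (s : St) (c z : ℤ) : Prop := c - s.rg c < z ∧ z < c + s.rg c

/-- empty cells of the region -/
noncomputable def EE (b : Bd) (c ρ : ℤ) : Finset ℤ :=
  (Finset.Ioo (c - ρ) (c + ρ)).filter (fun z => b.col z = 0)

/-- all cells strictly between `x` and `y` are empty -/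
def Vis (b : Bd) (x y : ℤ) : Prop := ∀ z, min x y < z → z < max x y → b.col z = 0

/-- board after Alice's stone and Bob's reply (or pass) -/
def bd2 (b : Bd) (y : ℤ) (a : ℕ) : Option (ℤ × ℕ) → Bd
  | none => b.put y a false
  | some (v, κ) => (b.put y a false).put v κ true

/-- time stamps after the exchange -/
def tm2 (tm : ℤ → ℕ) (now : ℕ) (y : ℤ) : Option (ℤ × ℕ) → ℤ → ℕ
  | none => fun z => if z = y then now else tm z
  | some (v, _) => fun z => if z = v then now + 1 else if z = y then now else tm z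

/-- the state after one exchange, before marking -/
def St.ex (s : St) (y : ℤ) (a : ℕ) (ov : Option (ℤ × ℕ)) (τ : Tag) (rg' : ℤ → ℤ) : St where
  b := bd2 s.b y a ov
  tm := tm2 s.tm s.now y ov
  now := s.now + 2
  tag := fun z => if z = y then τ else s.tag z
  mt := s.mt
  rg := rg'

/-- marking -/
noncomputable def St.mark (s : St) : St :=
  { s with mt := fun c => if s.mt c = 0 ∧ Alive s.b c ∧ (9000000 : ℕ) ≤ rr s.b c then s.now else s.mt c }

/-! ### Counting functions attached to a centre -/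

/-- Alice stones after the marking whose mirror was empty when they were placed -/
noncomputable def nn (s : St) (c : ℤ) : ℕ :=
  ((Finset.Icc (c - (10000000 : ℤ)) (c + (10000000 : ℤ))).filter (fun y => y ≠ c ∧ stA s.b y ∧ s.mt c ≤ s.tm y ∧
    (s.b.col (2 * c - y) = 0 ∨ s.tm y < s.tm (2 * c - y)))).card

/-- half pairs at the marking time -/
noncomputable def b0 (s : St) (c : ℤ) : ℕ :=
  ((Finset.Icc (c - (10000000 : ℤ)) (c + (10000000 : ℤ))).filter (fun z => z ≠ c ∧ s.b.col z ≠ 0 ∧ s.tm z < s.mt c ∧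
    (s.b.col (2 * c - z) = 0 ∨ s.mt c ≤ s.tm (2 * c - z)))).card

/-- stones older than the marking -/
noncomputable def oldc (s : St) (c : ℤ) : ℕ :=
  ((Finset.Icc (c - (10000000 : ℤ)) (c + (10000000 : ℤ))).filter (fun z => s.b.col z ≠ 0 ∧ s.tm z < s.mt c)).card

/-- `y` is a fix for `c` made after the marking -/
def Fx (s : St) (c y : ℤ) : Prop :=
  y ≠ c ∧ stA s.b y ∧ s.mt c ≤ s.tm y ∧ s.b.col (2 * c - y) ≠ 0 ∧ s.tm (2 * c - y) < s.tm y

def isFixp (t : Tag) : Prop := ∃ c, t = Tag.fixp c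

/-- number of passes of type `fixp` -/
noncomputable def fpr (s : St) (c : ℤ) : ℕ :=
  ((Finset.Icc (c - (10000000 : ℤ)) (c + (10000000 : ℤ))).filter (fun y => ¬ Zone c y ∧ Fx s c y ∧ isFixp (s.tag y))).card

/-- coloured cells in the zone -/
noncomputable def zc (b : Bd) (c : ℤ) : ℕ :=
  ((Finset.Icc (c - (10000000 : ℤ) - 203) (c + (10000000 : ℤ) + 203)).filter (fun z => Zone c z ∧ b.col z ≠ 0)).card

/-- dead marked centres nearby -/
noncomputable def dc (s : St) (c : ℤ) : ℕ :=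
  ((Finset.Icc (c - 2 * (10000000 : ℤ) - 1) (c + 2 * (10000000 : ℤ) + 1)).filter
    (fun c1 => c1 ≠ c ∧ s.mt c1 ≠ 0 ∧ ¬ Alive s.b c1)).card

noncomputable def exc (s : St) (c : ℤ) : ℕ := zc s.b c + dc s c

noncomputable def oneI (b : Bd) (c : ℤ) : ℕ := if One b c then 1 else 0

/-! ### The invariants -/

def ITime (s : St) : Prop :=
  1 ≤ s.now ∧ (∀ z, s.b.col z ≠ 0 → s.tm z < s.now) ∧
  (∀ z w, s.b.col z ≠ 0 → s.b.col w ≠ 0 → s.tm z = s.tm w → z = w) ∧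
  (∀ c, s.mt c ≤ s.now)

def IFresh (s : St) : Prop :=
  ∀ w q, stB s.b w → q ≠ w → s.b.col q = s.b.col w → Near s.b w q →
    s.b.own q = false ∧ s.tm w < s.tm q

def ILoc (s : St) : Prop :=
  ∀ y, stA s.b y → s.tag y = Tag.loc →
    ∃ v, stB s.b v ∧ s.tm v = s.tm y + 1 ∧ v - y ≤ (200 : ℤ) ∧ y - v ≤ (200 : ℤ)

def IFar (s : St) : Prop :=
  ∀ y, stA s.b y → s.tag y = Tag.far →
    ∀ z, z - y ≤ (200 : ℤ) → y - z ≤ (200 : ℤ) → s.b.col z ≠ 0 ∧ s.tm z ≤ s.tm y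

/-- `y` is within `(200 : ℤ)` of an end of the region of `c` -/
def NearEnd (c ρ y : ℤ) : Prop :=
  (y - (c + ρ) ≤ (200 : ℤ) ∧ (c + ρ) - y ≤ (200 : ℤ)) ∨ (y - (c - ρ) ≤ (200 : ℤ) ∧ (c - ρ) - y ≤ (200 : ℤ))

def INreg (s : St) : Prop :=
  ∀ y c, stA s.b y → s.tag y = Tag.nreg c → s.mt c ≠ 0 ∧ s.rg c ≠ 0 ∧ NearEnd c (s.rg c) y

def ICtr (s : St) : Prop :=
  ∀ y c, stA s.b y → s.tag y = Tag.ctr c →
    s.mt c ≠ 0 ∧ InW c y ∧ stB s.b c ∧ s.tm c = s.tm y + 1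

def IKill (s : St) : Prop :=
  (∀ y c, stA s.b y → s.tag y = Tag.kill c → s.mt c ≠ 0 ∧ ¬ Alive s.b c ∧ InW c y) ∧
  (∀ y y' c, stA s.b y → stA s.b y' → s.tag y = Tag.kill c → s.tag y' = Tag.kill c → y = y')

def IFixp (s : St) : Prop :=
  (∀ y c, stA s.b y → s.tag y = Tag.fixp c → s.mt c ≠ 0 ∧ InW c y ∧ Fx s c y) ∧
  ∀ c, ((Finset.Icc (c - (10000000 : ℤ)) (c + (10000000 : ℤ))).filter
    (fun y => stA s.b y ∧ s.tag y = Tag.fixp c)).card ≤ 2445

/-- marked centres have large `rr` -/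
def IMk (s : St) : Prop := ∀ c, s.mt c ≠ 0 → (9000000 : ℕ) ≤ rr s.b c

/-- unmarked alive centres have small `rr` -/
def IUn (s : St) : Prop := ∀ c, Alive s.b c → s.mt c = 0 → rr s.b c < (9000000 : ℕ)

/-- weak form of `IUn` between the exchange and the marking -/
def IUn' (s : St) : Prop := ∀ c, Alive s.b c → s.mt c = 0 → rr s.b c ≤ (9000000 : ℕ)

def ISep (s : St) : Prop :=
  ∀ c c', s.mt c ≠ 0 → s.mt c' ≠ 0 → c < c' → 3 * (10000000 : ℤ) ≤ 2 * (c' - c)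

def IIso (s : St) : Prop :=
  ∀ z, stB s.b z → s.b.col (z - 1) = 0 → s.b.col (z + 1) = 0 → s.mt z ≠ 0

/-- regions: geometry of the ends -/
def IRegG (s : St) : Prop :=
  ∀ c, s.rg c ≠ 0 → s.mt c ≠ 0 ∧ 204 ≤ s.rg c ∧ s.rg c ≤ 1000001 ∧
    s.b.col (c + s.rg c) ≠ 0 ∧ s.b.col (c - s.rg c) ≠ 0 ∧
    (s.b.own (c + s.rg c) = false ∨ s.b.col (c + s.rg c + 1) ≠ 0) ∧
    (s.b.own (c - s.rg c) = false ∨ s.b.col (c - s.rg c - 1) ≠ 0)

/-- regions: parity invariant -/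
def IRegP (s : St) : Prop :=
  ∀ c, HotR s c → Even (EE s.b c (s.rg c)).card ∧ (EE s.b c (s.rg c)).card ≠ 0 ∧
    ((EE s.b c (s.rg c)).card = 2 → s.b.col c ≠ 0)

def IAut (s : St) : Prop :=
  ∀ c, Hot0 s c → fpr s c + oneI s.b c ≤ exc s c + 1

def IBal (s : St) : Prop :=
  ∀ c, Hot0 s c → b0 s c + nn s c ≤ bb s.b c + fpr s c + exc s c

def IOld (s : St) : Prop :=
  ∀ c, Hot0 s c → oldc s c ≤ 2 * ((9000000 : ℕ) + b0 s c + 1) + 220000

def IXb (s : St) : Prop :=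
  ∀ c y, Hot0 s c → InW c y → Fx s c y → s.b.own (2 * c - y) = true →
    s.mt c ≤ s.tm (2 * c - y) →
    Zone c y ∨ isFixp (s.tag y) ∨ (∃ c1, c1 ≠ c ∧ s.tag y = Tag.kill c1) ∨
    ∃ q, InW c q ∧ q ≠ y ∧ stA s.b q ∧ s.b.col q = s.b.col (2 * c - y)

def IShield (s : St) : Prop :=
  ∀ c w e, Hot0 s c → InW c w → stB s.b w → s.mt c ≤ s.tm w → s.b.col (2 * c - w) = 0 →
    ¬ InW c e → s.b.col e = s.b.col w → Vis s.b (2 * c - w) e → (e - (2 * c - w)) % 2 ≠ 0

/-- everything except the marking statements -/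
structure Core (s : St) : Prop where
  safe : Safe s.b
  notri : NoTri s.b
  time : ITime s
  fresh : IFresh s
  loc : ILoc s
  far : IFar s
  nreg : INreg s
  ctr : ICtr s
  kill : IKill s
  fixp : IFixp s
  mkd : IMk s
  sep : ISep s
  iso : IIso s
  regG : IRegG s
  regP : IRegP s
  aut : IAut s
  bal : IBal s
  old : IOld s
  xb : IXb s
  shield : IShield s

structure Inv (s : St) : Prop extends Core s where
  un : IUn s

/-! ### Good replies -/

/-- the F-event: `y` copies a Bob stone and everything between is empty -/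
def FEv (s : St) (y : ℤ) (a : ℕ) (c : ℤ) : Prop :=
  Hot0 s c ∧ ¬ Zone c y ∧ InW c y ∧ stB s.b (2 * c - y) ∧ s.b.col (2 * c - y) = a ∧
    Vis s.b y (2 * c - y)

/-- tag specification -/
def TagOK (s : St) (y : ℤ) (a : ℕ) (ov : Option (ℤ × ℕ)) : Tag → Prop
  | Tag.loc => ∃ v κ, ov = some (v, κ) ∧ v - y ≤ (200 : ℤ) ∧ y - v ≤ (200 : ℤ)
  | Tag.far => ∀ z, z - y ≤ (200 : ℤ) → y - z ≤ (200 : ℤ) → (s.b.put y a false).col z ≠ 0
  | Tag.nreg c => s.mt c ≠ 0 ∧ s.rg c ≠ 0 ∧ NearEnd c (s.rg c) y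
  | Tag.ctr c => HotR s c ∧ InI s c y ∧ ∃ κ, ov = some (c, κ)
  | Tag.kill c => Hot0 s c ∧ InW c y ∧ ∃ v κ, ov = some (v, κ) ∧ Half (s.b.put y a false) c v
  | Tag.fixp c => Hot0 s c ∧ ov = none ∧ InW c y ∧ y ≠ c ∧ s.b.col (2 * c - y) = a

/-- all cells from `y` (inclusive) to `v` (exclusive) are coloured -/
def Conn (b : Bd) (y v : ℤ) : Prop :=
  y ≠ v ∧ ∀ z, min y v ≤ z → z ≤ max y v → z ≠ v → b.col z ≠ 0

structure Good (s : St) (y : ℤ) (a : ℕ) (ov : Option (ℤ × ℕ)) (τ : Tag) (rg' : ℤ → ℤ) :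
    Prop where
  hy : s.b.col y = 0
  ha : a ≠ 0
  safe : Safe (bd2 s.b y a ov)
  rep : ∀ v κ, ov = some (v, κ) → (s.b.put y a false).col v = 0 ∧ Fr (s.b.put y a false) v κ
  nbr : ∀ v κ, ov = some (v, κ) → (s.b.put y a false).col (v - 1) ≠ 0 ∨
    (s.b.put y a false).col (v + 1) ≠ 0 ∨ s.mt v ≠ 0
  /-- inside a region Bob replies inside, at the centre if possible -/
  inreg : ∀ c, HotR s c → InI s c y → ∃ v κ, ov = some (v, κ) ∧ InI s c v ∧
    ((s.b.put y a false).col c = 0 → SafeR (s.b.put y a false) c → v = c)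
  outreg : ∀ c, HotR s c → ¬ InI s c y → ∀ v κ, ov = some (v, κ) → ¬ InI s c v
  rgs : rg' = s.rg ∨ ∃ c v κ, FEv s y a c ∧ ov = some (v, κ) ∧
    ((y < c ∧ v = y + 1) ∨ (c < y ∧ v = y - 1)) ∧
    rg' = fun c' => if c' = c then ((y - c).natAbs : ℤ) else s.rg c'
  tag : TagOK s y a ov τ
  kind : ∀ c, Hot0 s c → ¬ Zone c y → (∃ c1, τ = Tag.kill c1) ∨ (∃ c1, HotR s c1 ∧ InI s c1 y) ∨
    (∃ v κ, ov = some (v, κ) ∧ v - y ≤ (200 : ℤ) ∧ y - v ≤ (200 : ℤ) ∧ Conn (s.b.put y a false) y v) ∨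
    (ov = none ∧ (InW c y → ∀ k, ¬ HK (s.b.put y a false) c k))
  fixpass : ov = none → ∀ c, Hot0 s c → InW c y → y ≠ c → s.b.col (2 * c - y) = a → isFixp τ
  xb : ∀ c, Hot0 s c → ¬ Zone c y → InW c y → stB s.b (2 * c - y) → s.b.col (2 * c - y) = a →
    s.mt c ≤ s.tm (2 * c - y) →
    rg' c ≠ 0 ∨ (∃ c1, τ = Tag.kill c1) ∨ isFixp τ ∨
      ∃ q, InW c q ∧ q ≠ y ∧ stA s.b q ∧ s.b.col q = a
  shield : ∀ c w, Hot0 s c → InW c w → stB s.b w → s.mt c ≤ s.tm w → s.b.col (2 * c - w) = 0 →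
    ¬ InW c y → a = s.b.col w → Vis s.b (2 * c - w) y → (y - (2 * c - w)) % 2 = 0 →
    ∃ v κ, ov = some (v, κ) ∧ min (2 * c - w) y < v ∧ v < max (2 * c - w) y

end MP583455
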