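import Pool.Agent.Lib.MP_583455_co.Mg.G001

namespace MP583455

open Classical

private theorem X0b_right (b1 : Bd) (y : ℤ) (hy : b1.col y ≠ 0) (n : ℕ) :
    b1.col (y + n) = 0 → ∃ v, b1.col v = 0 ∧ y < v ∧ v ≤ y + n ∧
      ∀ z, y ≤ z → z < v → b1.col z ≠ 0 := by
  induction n with
  | zero => intro h; simp at h; exact absurd h hy
  | succ n ih =>
    intro h
    by_cases hex : ∃ m : ℕ, m ≤ n ∧ b1.col (y + m) = 0
    · -- smaller empty cell
      obtain ⟨m, hm, hm0⟩ := hex
      obtain ⟨m0, hm1, hm2⟩ : ∃ m0 : ℕ, (m0 ≤ n ∧ b1.col (y + m0) = 0) ∧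
          ∀ k : ℕ, k < m0 → ¬ (k ≤ n ∧ b1.col (y + k) = 0) :=
        ⟨Nat.find (⟨m, hm, hm0⟩ : ∃ m : ℕ, m ≤ n ∧ b1.col (y + m) = 0),
          Nat.find_spec (⟨m, hm, hm0⟩ : ∃ m : ℕ, m ≤ n ∧ b1.col (y + m) = 0),
          fun k hk => Nat.find_min _ hk⟩
      refine ⟨y + m0, hm1.2, ?_, by omega, ?_⟩
      · have : m0 ≠ 0 := by rintro rfl; simp at hm1; exact hy hm1
        omega
      · intro z hz1 hz2 hz0
        have := hm2 (z - y).toNat (by omega)
        apply this
        refine ⟨by omega, ?_⟩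
        rw [← hz0]; congr 1; omega
    · push Not at hex
      refine ⟨y + (n + 1 : ℕ), h, by push_cast; omega, le_rfl, ?_⟩
      intro z hz1 hz2 hz0
      push_cast at hz2
      refine hex (z - y).toNat (by omega) ?_
      rw [← hz0]; congr 1; omega

private theorem X0b_left (b1 : Bd) (y : ℤ) (hy : b1.col y ≠ 0) (n : ℕ)
    (h : b1.col (y - n) = 0) : ∃ v, b1.col v = 0 ∧ v < y ∧ y - n ≤ v ∧
      ∀ z, z ≤ y → v < z → b1.col z ≠ 0 := by
  obtain ⟨v, h1, h2, h3, h4⟩ := X0b_right ⟨fun z => b1.col (-z), b1.own⟩ (-y) (by simpa using hy) n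
    (by simp only; rw [← h]; congr 1; ring)
  refine ⟨-v, h1, by omega, by omega, ?_⟩
  intro z hz1 hz2
  have := h4 (-z) (by omega) (by omega)
  simpa using this

/-- the first empty cell in a direction: if `z` is empty in `b1`, `z ≠ y`, and `y` is coloured, then there is an
empty `v` between `y` and `z` (possibly `v = z`), all cells from `y` up to `v` being coloured. -/
theorem first_empty (b1 : Bd) {y z : ℤ} (hy : b1.col y ≠ 0) (hz : b1.col z = 0) :
    ∃ v, b1.col v = 0 ∧ Conn b1 y v ∧ min y z ≤ v ∧ v ≤ max y z ∧ (y < z → y < v) ∧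
      (z < y → v < y) := by
  have hne : z ≠ y := by rintro rfl; exact hy hz
  rcases lt_or_gt_of_ne hne with h | h
  · obtain ⟨v, h1, h2, h3, h4⟩ := X0b_left b1 y hy (y - z).toNat
      (by rw [← hz]; congr 1; omega)
    refine ⟨v, h1, ⟨by omega, ?_⟩, by omega, by omega, by omega, by omega⟩
    intro w hw1 hw2 hw3
    exact h4 w (by omega) (by omega)
  · obtain ⟨v, h1, h2, h3, h4⟩ := X0b_right b1 y hy (z - y).toNat
      (by rw [← hz]; congr 1; omega)
    refine ⟨v, h1, ⟨by omega, ?_⟩, by omega, by omega, by omega, by omega⟩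
    intro w hw1 hw2 hw3
    exact h4 w (by omega) (by omega)

end MP583455
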