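import Pool.Agent.Lib.MP_583455_co.Mg.G004
import Pool.Agent.Lib.MP_583455_co.Mg.G003

namespace MP583455

open Classical

private lemma F1d_col_add_emp (b : Bd) (c : ℤ) : colW b c + empW b c = 20000001 := by
  unfold colW empW
  have h := Finset.card_filter_add_card_filter_not (s := Finset.Icc (c - (10000000 : ℤ)) (c + (10000000 : ℤ)))
    (fun z => b.col z ≠ 0)
  have h2 : (Finset.Icc (c - (10000000 : ℤ)) (c + (10000000 : ℤ))).filter (fun z => ¬ (b.col z ≠ 0)) =
      (Finset.Icc (c - (10000000 : ℤ)) (c + (10000000 : ℤ))).filter (fun z => b.col z = 0) := by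
    apply Finset.filter_congr
    intro z _
    exact not_not
  rw [h2, Int.card_Icc] at h
  omega

private lemma F1d_bb_le (b : Bd) (c : ℤ) : bb b c ≤ empW b c := by
  unfold bb empW
  apply Finset.card_le_card
  intro z hz
  rw [Finset.mem_filter] at hz ⊢
  exact ⟨hz.1, hz.2.2.2.2.1⟩

private lemma F1d_colW_le (s : St) (c : ℤ) : colW s.b c ≤ oldc s c +
    ((Finset.Icc (c - (10000000 : ℤ)) (c + (10000000 : ℤ))).filter (fun y => stA s.b y ∧ s.mt c ≤ s.tm y)).card +
    ((Finset.Icc (c - (10000000 : ℤ)) (c + (10000000 : ℤ))).filter (fun w => stB s.b w ∧ s.mt c ≤ s.tm w)).card := by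
  unfold colW oldc
  refine le_trans ?_ ((Finset.card_union_le _ _).trans
    (Nat.add_le_add_right (Finset.card_union_le _ _) _))
  apply Finset.card_le_card
  intro z hz
  rw [Finset.mem_filter] at hz
  rw [Finset.mem_union, Finset.mem_union, Finset.mem_filter, Finset.mem_filter, Finset.mem_filter]
  by_cases h1 : s.tm z < s.mt c
  · exact Or.inl (Or.inl ⟨hz.1, hz.2, h1⟩)
  · cases h2 : s.b.own z with
    | false => exact Or.inl (Or.inr ⟨hz.1, ⟨hz.2, h2⟩, not_lt.1 h1⟩)
    | true => exact Or.inr ⟨hz.1, ⟨hz.2, h2⟩, not_lt.1 h1⟩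

/-- PROOF: suppose `empW ≤ 1`. Then `bb ≤ 1`, `exc ≤ 1223`, `fpr ≤ exc + 1 ≤ 1224`,
`b0 + nn ≤ bb + fpr + exc ≤ 2448`. `colW = oldc + new Alice + new Bob` and
`oldc ≤ 2*((9000000 : ℕ) + b0 + 1) + 220000`, so `colW < 20000000`. -/
theorem final_hot {s : St} (hI : Inv s) {c : ℤ} (h0 : Hot0 s c) : 2 ≤ empW s.b c := by
  by_contra hlt
  have h1 := F1d_col_add_emp s.b c
  have h2 := F1d_bb_le s.b c
  have h3 := F1d_colW_le s c
  have h4 := exc_le hI.sep h0.1
  have h5 := hI.aut c h0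
  have h6 := hI.bal c h0
  have h7 := hI.old c h0
  have h8 := cnt_fba hI.toCore h0
  have h9 := cnt_newB hI.toCore h0
  have h10 := cnt_newA hI.toCore c
  omega

theorem final {s : St} (hI : Inv s) {c : ℤ} (hal : Alive s.b c) : 2 ≤ empW s.b c := by
  by_cases h1 : s.mt c = 0
  · exact final_un hI hal h1
  · by_cases h2 : s.rg c = 0
    · exact final_hot hI ⟨h1, hal, h2⟩
    · exact final_reg hI ⟨h1, hal, h2⟩

end MP583455
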