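import Pool.Agent.Lib.MP_583455_co.Mg.G004

namespace MP583455

open Classical

/-- PROOF. `safe, notri, fresh, loc, far` do not involve `mt`. `mk_tags` gives most fields. `sep`: `sep_of_rr`
(all marked centres have `(9000000 : ℕ) ≤ rr` by `IMk s.mark`).
`aut, bal, old` for a centre already marked in `s`: `mk_old`, `mk_exc` and `hC`; for a newly marked centre:
`mk_new`: `0 + oneI ≤ exc + 1`, `bb + 0 ≤ bb + 0 + exc`, and
`oldc = colW ≤ 2*(rr + bb + 1) + 220000` (`colW_le`) with `rr ≤ (9000000 : ℕ)` (`hU`).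
`xb`, `shield`: for a newly marked centre vacuous: they need a coloured cell with time `≥ s.now`; for an old one
`hC`. -/
theorem core_mark {s : St} (hC : Core s) (hU : IUn' s) : Inv s.mark := by
  obtain ⟨t1, t2, t3, t4, t5, t6, t7, t8, t9, t10⟩ := mk_tags hC
  -- a centre that is `Hot0` after the marking is old or new
  have hcase : ∀ c, s.mark.mt c ≠ 0 → s.mt c ≠ 0 ∨
      (s.mt c = 0 ∧ Alive s.b c ∧ (9000000 : ℕ) ≤ rr s.b c ∧ s.mark.mt c = s.now) := by
    intro c hc
    by_cases h0 : s.mt c = 0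
    · right
      by_cases h1 : s.mt c = 0 ∧ Alive s.b c ∧ (9000000 : ℕ) ≤ rr s.b c
      · refine ⟨h1.1, h1.2.1, h1.2.2, ?_⟩
        show (if s.mt c = 0 ∧ Alive s.b c ∧ (9000000 : ℕ) ≤ rr s.b c then s.now else s.mt c) = s.now
        rw [if_pos h1]
      · exfalso
        apply hc
        show (if s.mt c = 0 ∧ Alive s.b c ∧ (9000000 : ℕ) ≤ rr s.b c then s.now else s.mt c) = 0
        rw [if_neg h1]; exact h0
    · left; exact h0
  have hb : s.mark.b = s.b := rfl
  have hrg : s.mark.rg = s.rg := rfl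
  have htm : s.mark.tm = s.tm := rfl
  have htag : s.mark.tag = s.tag := rfl
  refine
    { safe := hC.safe
      notri := hC.notri
      time := t1
      fresh := hC.fresh
      loc := hC.loc
      far := hC.far
      nreg := t2
      ctr := t3
      kill := t4
      fixp := t5
      mkd := t6
      sep := ?_
      iso := t7
      regG := t8
      regP := t9
      aut := ?_
      bal := ?_
      old := ?_
      xb := ?_
      shield := ?_
      un := t10 }
  · intro c c' h1 h2 h3
    exact sep_of_rr hC (t6 c h1) (t6 c' h2) h3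
  · intro c hc
    rw [mk_exc]
    rcases hcase c hc.1 with h1 | ⟨h1, h2, h3, h4⟩
    · obtain ⟨_, _, e2, _, _⟩ := mk_old h1
      rw [e2]
      exact hC.aut c ⟨h1, hc.2.1, hc.2.2⟩
    · obtain ⟨_, _, e2, _, _⟩ := mk_new hC h1 h2 h3
      rw [e2]
      have : oneI s.mark.b c ≤ 1 := by
        unfold oneI
        split_ifs <;> omega
      omega
  · intro c hc
    rw [mk_exc]
    rcases hcase c hc.1 with h1 | ⟨h1, h2, h3, h4⟩
    · obtain ⟨_, e1, e2, e3, _⟩ := mk_old h1
      rw [e1, e2, e3]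
      exact hC.bal c ⟨h1, hc.2.1, hc.2.2⟩
    · obtain ⟨_, e1, e2, e3, _⟩ := mk_new hC h1 h2 h3
      rw [e1, e2, e3]
      show bb s.b c + 0 ≤ bb s.b c + 0 + exc s c
      omega
  · intro c hc
    rcases hcase c hc.1 with h1 | ⟨h1, h2, h3, h4⟩
    · obtain ⟨_, e1, e2, e3, e4⟩ := mk_old h1
      rw [e3, e4]
      exact hC.old c ⟨h1, hc.2.1, hc.2.2⟩
    · obtain ⟨_, e1, e2, e3, e4⟩ := mk_new hC h1 h2 h3
      rw [e3, e4]
      have h5 := colW_le hC h2
      have h6 := hU c h2 h1
      omega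
  · intro c y hc h1 h2 h3 h4
    rcases hcase c hc.1 with h5 | ⟨h5, h6, h7, h8⟩
    · have e0 : s.mark.mt c = s.mt c := (mk_old h5).1
      refine hC.xb c y ⟨h5, hc.2.1, hc.2.2⟩ h1 ?_ h3 ?_
      · obtain ⟨f1, f2, f3, f4, f5⟩ := h2
        rw [e0] at f3
        exact ⟨f1, f2, f3, f4, f5⟩
      · rw [e0] at h4; exact h4
    · exfalso
      have f3 := h2.2.2.1
      have f2 := h2.2.1.1
      rw [h8] at f3
      have := hC.time.2.1 y f2
      have f4 : s.now ≤ s.tm y := f3
      omega
  · intro c w e hc h1 h2 h3 h4 h5 h6 h7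
    rcases hcase c hc.1 with h8 | ⟨h8, h9, h10, h11⟩
    · have e0 : s.mark.mt c = s.mt c := (mk_old h8).1
      rw [e0] at h3
      exact hC.shield c w e ⟨h8, hc.2.1, hc.2.2⟩ h1 h2 h3 h4 h5 h6 h7
    · exfalso
      rw [h11] at h3
      have := hC.time.2.1 w h2.1
      have f4 : s.now ≤ s.tm w := h3
      omega

end MP583455
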