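import Pool.Agent.Lib.MP_583455_co.Mg.G001

namespace MP583455

open Classical

private lemma N2_cnt_lt_right (b : Bd) {v w1 w2 : ℤ} (h1 : v < w1) (h2 : w1 < w2)
    (c1 : b.col w1 ≠ 0) : cnt b v w1 < cnt b v w2 := by
  unfold cnt
  apply Finset.card_lt_card
  rw [Finset.ssubset_iff_of_subset]
  · refine ⟨w1, ?_, ?_⟩
    · rw [Finset.mem_filter, Finset.mem_Ioo]
      exact ⟨⟨h1, h2⟩, c1⟩
    · rw [Finset.mem_filter, Finset.mem_Ioo]
      rintro ⟨⟨_, h⟩, _⟩
      exact lt_irrefl _ h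
  · intro z hz
    rw [Finset.mem_filter, Finset.mem_Ioo] at hz ⊢
    exact ⟨⟨hz.1.1, hz.1.2.trans h2⟩, hz.2⟩

private lemma N2_cnt_lt_left (b : Bd) {v w1 w2 : ℤ} (h1 : w1 < v) (h2 : w2 < w1)
    (c1 : b.col w1 ≠ 0) : cnt b w1 v < cnt b w2 v := by
  unfold cnt
  apply Finset.card_lt_card
  rw [Finset.ssubset_iff_of_subset]
  · refine ⟨w1, ?_, ?_⟩
    · rw [Finset.mem_filter, Finset.mem_Ioo]
      exact ⟨⟨h2, h1⟩, c1⟩
    · rw [Finset.mem_filter, Finset.mem_Ioo]
      rintro ⟨⟨h, _⟩, _⟩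
      exact lt_irrefl _ h
  · intro z hz
    rw [Finset.mem_filter, Finset.mem_Ioo] at hz ⊢
    exact ⟨⟨h2.trans hz.1.1, hz.1.2⟩, hz.2⟩

/-- a family of cells on which an index is injective has few colours -/
private lemma N2_colours (b : Bd) (P : ℤ → Prop) (i : ℤ → ℕ) (N : ℕ)
    (hinj : ∀ w1 w2, P w1 → P w2 → i w1 = i w2 → w1 = w2) :
    ∃ T : Finset ℕ, T.card ≤ N ∧ ∀ w, P w → i w < N → b.col w ∈ T := by
  refine ⟨(Finset.range N).image
    (fun k => if h : ∃ w, P w ∧ i w = k then b.col h.choose else 0), ?_, ?_⟩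
  · refine Finset.card_image_le.trans ?_
    rw [Finset.card_range]
  · intro w hw hi
    rw [Finset.mem_image]
    refine ⟨i w, Finset.mem_range.2 hi, ?_⟩
    have h : ∃ w', P w' ∧ i w' = i w := ⟨w, hw, rfl⟩
    rw [dif_pos h]
    have hs := h.choose_spec
    rw [hinj _ _ hs.1 hw hs.2]

/-- PROOF. Let `S` be the set of coloured `w ≠ v` that are near `v`.
Right part `SR = {w > v}`: the map `w ↦ cnt b v w` is injective on `SR` (if `w1 < w2` are both
coloured then `w1` itself is counted in `cnt b v w2`, so `cnt b v w1 < cnt b v w2`) and takes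
values `< (100000000 : ℕ)`.  Hence the set of colours `{b.col w | w ∈ SR}` has at most `(100000000 : ℕ)` elements: for the
counting work with `f : ℕ → ℕ` sending `i < (100000000 : ℕ)` to the colour of the (unique) `w ∈ SR` with
`cnt b v w = i` (or `0`), so the colours of `SR` lie in `(Finset.range (100000000 : ℕ)).image f`.
Similarly for the left part (with `cnt b w v`).  So the colours of near stones lie in a finset `T`
of card `≤ 2*(100000000 : ℕ)`, while `Finset.Icc 1 (n+1)` has `n+1 ≥ 2*(100000000 : ℕ)+2` elements, so some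
`κ ∈ Icc 1 (n+1)` is not in `T`.  (`v` itself is empty.) -/
theorem exists_fresh (b : Bd) (v : ℤ) (hv : b.col v = 0) (n : ℕ) (hn : 2 * (100000000 : ℕ) + 1 ≤ n) :
    ∃ κ, κ ≤ n + 1 ∧ Fr b v κ := by
  obtain ⟨T1, hT1, hT1'⟩ := N2_colours b (fun w => v < w ∧ b.col w ≠ 0) (fun w => cnt b v w) (100000000 : ℕ)
    (by
      rintro w1 w2 ⟨h1, c1⟩ ⟨h2, c2⟩ h
      rcases lt_trichotomy w1 w2 with h3 | h3 | h3
      · exact absurd h (N2_cnt_lt_right b h1 h3 c1).ne
      · exact h3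
      · exact absurd h (N2_cnt_lt_right b h2 h3 c2).ne')
  obtain ⟨T2, hT2, hT2'⟩ := N2_colours b (fun w => w < v ∧ b.col w ≠ 0) (fun w => cnt b w v) (100000000 : ℕ)
    (by
      rintro w1 w2 ⟨h1, c1⟩ ⟨h2, c2⟩ h
      rcases lt_trichotomy w1 w2 with h3 | h3 | h3
      · exact absurd h (N2_cnt_lt_left b h2 h3 c2).ne'
      · exact h3
      · exact absurd h (N2_cnt_lt_left b h1 h3 c1).ne)
  have hcard : (T1 ∪ T2).card < (Finset.Icc 1 (n + 1)).card := by
    rw [Nat.card_Icc]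
    have := Finset.card_union_le T1 T2
    omega
  obtain ⟨κ, hκ1, hκ2⟩ := Finset.exists_mem_notMem_of_card_lt_card hcard
  rw [Finset.mem_Icc] at hκ1
  refine ⟨κ, hκ1.2, by omega, ?_⟩
  intro w hw hnear heq
  apply hκ2
  rw [Finset.mem_union]
  rcases lt_trichotomy v w with h | h | h
  · left
    rw [← heq]
    apply hT1' w ⟨h, hw⟩
    unfold Near at hnear
    rwa [min_eq_left h.le, max_eq_right h.le] at hnear
  · rw [← h] at hw
    exact absurd hv hw
  · right
    rw [← heq]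
    apply hT2' w ⟨h, hw⟩
    unfold Near at hnear
    rwa [min_eq_right h.le, max_eq_left h.le] at hnear

end MP583455
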