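import Pool.Agent.Lib.MP_583455_co.Mg.G008
import Pool.Agent.Lib.MP_583455_co.Mg.G010
import Pool.Agent.Lib.MP_583455_co.Mg.G009
import Pool.Agent.Lib.MP_583455_co.Mg.G007
import Pool.Agent.Lib.MP_583455_co.Mg.G002

namespace MP583455

open Classical

variable {s : St} {y : ℤ} {a : ℕ} {ov : Option (ℤ × ℕ)} {τ : Tag} {rg' : ℤ → ℤ}

/-- PROOF. First part: old stones by `fx_old`; for `y` with `τ = fixp c` by `hG.tag`, `fx_y`.
Counting part: for `c` with `τ ≠ fixp c` the set is unchanged. If `τ = fixp c`: `Hot0 s c`, Bob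
passes, `s.b.col (2c-y) = a`, so `c` is alive in the new board, `rg' = s.rg` (as `ov = none`), so
`Hot0` in the new state. The set is contained in
(zone cells of the window, `≤ 1221`) ∪ (the set counted by `fpr` in the new state), and
`fpr ≤ exc + 1 ≤ 1224` by `p_aut` and `exc_le` (new state, `p_sep`). -/
theorem p_fixp (hC : Core s) (hG : Good s y a ov τ rg') : IFixp (s.ex y a ov τ rg') := by
  have hpart1 : ∀ y' c, stA (s.ex y a ov τ rg').b y' → (s.ex y a ov τ rg').tag y' = Tag.fixp c →
      (s.ex y a ov τ rg').mt c ≠ 0 ∧ InW c y' ∧ Fx (s.ex y a ov τ rg') c y' := by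
    intro y' c h1 h2
    rcases hG.stA_cases h1 with h3 | h3
    · subst h3
      rw [tag_y] at h2
      have ht := hG.tag
      rw [h2] at ht
      obtain ⟨t1, t2, t3, t4, t5⟩ := ht
      refine ⟨t1.1, t3, ?_⟩
      rw [fx_y hC hG]
      exact ⟨t4, by rw [t5]; exact hG.ha⟩
    · have hne : y' ≠ y := by
        rintro rfl
        exact h3.1 hG.hy
      rw [tag_old hne] at h2
      obtain ⟨t1, t2, t3⟩ := hC.fixp.1 y' c h3 h2
      exact ⟨t1, t2, (fx_old hC hG h3.1).2 t3⟩
  refine ⟨hpart1, ?_⟩
  intro c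
  by_cases hτ : τ = Tag.fixp c
  · have ht := hG.tag
    rw [hτ] at ht
    obtain ⟨t1, t2, t3, t4, t5⟩ := ht
    have hb : bd2 s.b y a ov = s.b.put y a false := by rw [t2]; rfl
    have hrg : rg' = s.rg := by
      rcases hG.rgs with h | ⟨_, v, κ, _, h, _⟩
      · exact h
      · rw [t2] at h; exact absurd h (by simp)
    have hal : Alive (bd2 s.b y a ov) c := by
      rw [hb]
      intro z h1 h2 h3 h4
      rw [put_col] at h3 h4 ⊢
      rw [put_col]
      by_cases hz : z = y
      · have hm : 2 * c - z ≠ y := by omega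
        rw [if_pos hz, if_neg hm, hz, t5]
      · by_cases hm : 2 * c - z = y
        · rw [if_neg hz, if_pos hm]
          have : z = 2 * c - y := by omega
          rw [this, t5]
        · rw [if_neg hz] at h3 ⊢
          rw [if_neg hm] at h4 ⊢
          exact t1.2.1 z h1 h2 h3 h4
    have hhot : Hot0 (s.ex y a ov τ rg') c := ⟨t1.1, hal, by
      show rg' c = 0
      rw [hrg]; exact t1.2.2⟩
    have h1 := p_aut hC hG c hhot
    have h2 := exc_le (p_sep hC hG) (c := c) t1.1
    have h3 := zoneW_le c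
    have hsub : (Finset.Icc (c - (10000000 : ℤ)) (c + (10000000 : ℤ))).filter
        (fun y' => stA (s.ex y a ov τ rg').b y' ∧ (s.ex y a ov τ rg').tag y' = Tag.fixp c) ⊆
        (Finset.Icc (c - (10000000 : ℤ)) (c + (10000000 : ℤ))).filter (fun z => Zone c z) ∪
        (Finset.Icc (c - (10000000 : ℤ)) (c + (10000000 : ℤ))).filter (fun y' => ¬ Zone c y' ∧
          Fx (s.ex y a ov τ rg') c y' ∧ isFixp ((s.ex y a ov τ rg').tag y')) := by
      intro z hz
      rw [Finset.mem_filter] at hz
      rw [Finset.mem_union, Finset.mem_filter, Finset.mem_filter]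
      by_cases hzo : Zone c z
      · left; exact ⟨hz.1, hzo⟩
      · right
        exact ⟨hz.1, hzo, (hpart1 z c hz.2.1 hz.2.2).2.2, ⟨c, hz.2.2⟩⟩
    have h4 := Finset.card_le_card hsub
    have h5 := Finset.card_union_le
      ((Finset.Icc (c - (10000000 : ℤ)) (c + (10000000 : ℤ))).filter (fun z => Zone c z))
      ((Finset.Icc (c - (10000000 : ℤ)) (c + (10000000 : ℤ))).filter (fun y' => ¬ Zone c y' ∧
          Fx (s.ex y a ov τ rg') c y' ∧ isFixp ((s.ex y a ov τ rg').tag y')))
    unfold fpr at h1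
    omega
  · refine le_trans (Finset.card_le_card ?_) (hC.fixp.2 c)
    intro z hz
    rw [Finset.mem_filter] at hz ⊢
    refine ⟨hz.1, ?_⟩
    rcases hG.stA_cases hz.2.1 with h3 | h3
    · exfalso
      apply hτ
      have := hz.2.2
      rw [h3, tag_y] at this
      exact this
    · have hne : z ≠ y := by
        rintro rfl
        exact h3.1 hG.hy
      refine ⟨h3, ?_⟩
      have := hz.2.2
      rw [tag_old hne] at this
      exact this

theorem core_ex (hC : Core s) (hG : Good s y a ov τ rg') : Core (s.ex y a ov τ rg') where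
  safe := hG.safe
  notri := p_notri hC hG
  time := p_time hC hG
  fresh := p_fresh hC hG
  loc := p_loc hC hG
  far := p_far hC hG
  nreg := p_nreg hC hG
  ctr := p_ctr hC hG
  kill := p_kill hC hG
  fixp := p_fixp hC hG
  mkd := p_mk hC hG
  sep := p_sep hC hG
  iso := p_iso hC hG
  regG := p_regG hC hG
  regP := p_regP hC hG
  aut := p_aut hC hG
  bal := p_bal hC hG
  old := p_old hC hG
  xb := p_xb hC hG
  shield := p_shield hC hG

end MP583455
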