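import Pool.Agent.Lib.MP_583455_co.X5
import Pool.Agent.Lib.MP_583455_co.P4
import Pool.Agent.Lib.MP_583455_co.M1d
import Pool.Agent.Lib.MP_583455_co.F1d
import Pool.Agent.Lib.MP_583455_co.N2

/-!
# G1: initial state, one full exchange, no long palindromes
-/

namespace MP583455

open Classical

/-- the initial state: empty board -/
def s0 : St where
  b := ⟨fun _ => 0, fun _ => false⟩
  tm := fun _ => 0
  now := 1
  tag := fun _ => Tag.loc
  mt := fun _ => 0
  rg := fun _ => 0

lemma s0_col (z : ℤ) : s0.b.col z = 0 := rfl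
lemma s0_mt (z : ℤ) : s0.mt z = 0 := rfl
lemma s0_rg (z : ℤ) : s0.rg z = 0 := rfl

lemma s0_hot0 {c : ℤ} (h : Hot0 s0 c) : False := h.1 rfl
lemma s0_hotR {c : ℤ} (h : HotR s0 c) : False := h.1 rfl
lemma s0_stA {c : ℤ} (h : stA s0.b c) : False := h.1 rfl
lemma s0_stB {c : ℤ} (h : stB s0.b c) : False := h.1 rfl

theorem inv_init : Inv s0 where
  safe :=
    { par := fun l r _ h => absurd (s0_col l) h
      finR := fun z h => absurd (s0_col z) h
      finL := fun z h => absurd (s0_col z) h }
  notri := fun z h => absurd (s0_col z) h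
  time := ⟨le_refl _, fun z h => absurd (s0_col z) h, fun z _ h => absurd (s0_col z) h,
    fun c => by rw [s0_mt]; exact Nat.zero_le _⟩
  fresh := fun w q h => (s0_stB h).elim
  loc := fun y h => (s0_stA h).elim
  far := fun y h => (s0_stA h).elim
  nreg := fun y c h => (s0_stA h).elim
  ctr := fun y c h => (s0_stA h).elim
  kill := ⟨fun y c h => (s0_stA h).elim, fun y y' c h => (s0_stA h).elim⟩
  fixp := by
    refine ⟨fun y c h => (s0_stA h).elim, fun c => ?_⟩
    have : (Finset.Icc (c - (10000000 : ℤ)) (c + (10000000 : ℤ))).filter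
        (fun y => stA s0.b y ∧ s0.tag y = Tag.fixp c) = ∅ := by
      rw [Finset.filter_eq_empty_iff]
      intro x _ h
      exact s0_stA h.1
    rw [this]
    simp
  mkd := fun c h => absurd (s0_mt c) h
  sep := fun c c' h => absurd (s0_mt c) h
  iso := fun z h => (s0_stB h).elim
  regG := fun c h => absurd (s0_rg c) h
  regP := fun c h => (s0_hotR h).elim
  aut := fun c h => (s0_hot0 h).elim
  bal := fun c h => (s0_hot0 h).elim
  old := fun c h => (s0_hot0 h).elim
  xb := fun c y h => (s0_hot0 h).elim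
  shield := fun c w e h => (s0_hot0 h).elim
  un := by
    intro c _ _
    have : (Finset.Icc (c - (10000000 : ℤ)) (c + (10000000 : ℤ))).filter
        (fun w => w ≠ c ∧ s0.b.col w ≠ 0 ∧ s0.b.own w = true ∧ s0.b.col w = s0.b.col (2 * c - w))
        = ∅ := by
      rw [Finset.filter_eq_empty_iff]
      intro x _ h
      exact h.2.1 rfl
    unfold rr
    rw [this]
    simp

theorem step {n : ℕ} (hn : 2 * (100000000 : ℕ) + 1 ≤ n) {s : St} (hI : Inv s) (hb : ∀ z, s.b.col z ≤ n + 1)
    {y : ℤ} {a : ℕ} (hy : s.b.col y = 0) (ha : a ≠ 0) (ha' : a ≤ n + 1) :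
    NoTri (s.b.put y a false) ∧
    ∃ s', Inv s' ∧ (∀ z, s'.b.col z ≤ n + 1) ∧
      (s'.b = s.b.put y a false ∨
        ∃ v κ, (s.b.put y a false).col v = 0 ∧ κ ≠ 0 ∧ κ ≤ n + 1 ∧
          s'.b = (s.b.put y a false).put v κ true) := by
  refine ⟨notri_put hI.safe hI.notri hy ha, ?_⟩
  obtain ⟨ov, τ, rg', hN, hG⟩ := exists_good (N := n + 1) hI.toCore hy ha
    (fun v hv => exists_fresh _ v hv n hn)
  have hC' := core_ex hI.toCore hG
  have hU' := p_un hI.toCore hI.un hG
  have hI' := core_mark hC' hU'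
  refine ⟨_, hI', ?_, ?_⟩
  · intro z
    show (bd2 s.b y a ov).col z ≤ n + 1
    by_cases hz : (bd2 s.b y a ov).col z = 0
    · omega
    rcases col_cases hz with h1 | ⟨κ, h1⟩ | h1
    · rw [h1, hG.col_y]; exact ha'
    · rw [col_v h1]; exact hN _ _ h1
    · rw [hG.col_old h1]; exact hb z
  · cases ov with
    | none => left; rfl
    | some p =>
      obtain ⟨v, κ⟩ := p
      right
      exact ⟨v, κ, (hG.rep v κ rfl).1, hG.kpos rfl, hN v κ rfl, rfl⟩

/-- no palindrome of radius `(10000000 : ℤ)` in the position `b`, nor after one further stone -/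
theorem no_pal {s : St} (hI : Inv s) {b' : Bd}
    (hb' : b' = s.b ∨ ∃ y a, s.b.col y = 0 ∧ b' = s.b.put y a false) (c : ℤ)
    (h : ∀ z, c - (10000000 : ℤ) ≤ z → z ≤ c + (10000000 : ℤ) → b'.col z ≠ 0 ∧ b'.col z = b'.col (2 * c - z)) : False := by
  have hal : Alive s.b c := by
    intro z h1 h2 h3 h4
    rcases hb' with rfl | ⟨y, a, hy, rfl⟩
    · exact (h z h1 h2).2
    · have hzy : z ≠ y := by rintro rfl; exact h3 hy
      have hzy' : 2 * c - z ≠ y := by rintro rfl; exact h4 hy
      have := (h z h1 h2).2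
      simpa [hzy, hzy'] using this
  have h2 := final hI hal
  -- two empty cells in the window
  have h3 : 1 < ((Finset.Icc (c - (10000000 : ℤ)) (c + (10000000 : ℤ))).filter (fun z => s.b.col z = 0)).card := h2
  rw [Finset.one_lt_card] at h3
  obtain ⟨u, hu, w, hw, huw⟩ := h3
  rw [Finset.mem_filter, Finset.mem_Icc] at hu hw
  rcases hb' with rfl | ⟨y, a, hy, rfl⟩
  · exact (h u hu.1.1 hu.1.2).1 hu.2
  · by_cases huy : u = y
    · have hwy : w ≠ y := fun e => huw (huy.trans e.symm)
      have := (h w hw.1.1 hw.1.2).1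
      simp [hwy] at this
      exact this hw.2
    · have := (h u hu.1.1 hu.1.2).1
      simp [huy] at this
      exact this hu.2

end MP583455
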