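import Pool.Agent.Lib.MP_583455_co.Mg.G011
import Pool.Agent.Lib.MP_583455_co.Mg.G003
import Pool.Agent.Lib.MP_583455_co.Mg.G012

namespace MP583455

open Classical

theorem exists_good {s : St} (hC : Core s) {y : ℤ} {a N : ℕ} (hy : s.b.col y = 0) (ha : a ≠ 0)
    (hF : ∀ v, (s.b.put y a false).col v = 0 → ∃ κ, κ ≤ N ∧ Fr (s.b.put y a false) v κ) :
    ∃ ov τ rg', (∀ v κ, ov = some (v, κ) → κ ≤ N) ∧ Good s y a ov τ rg' := by
  by_cases h0 : ∃ c, HotR s c ∧ InI s c y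
  · obtain ⟨c, h1, h2⟩ := h0
    obtain ⟨v, κ, τ, hκ, hG⟩ := good_region hC hy ha hF h1 h2
    refine ⟨_, τ, _, ?_, hG⟩
    intro v' κ' h
    simp only [Option.some.injEq, Prod.mk.injEq] at h
    omega
  have hno : ∀ c, HotR s c → ¬ InI s c y := fun c h1 h2 => h0 ⟨c, h1, h2⟩
  by_cases h1 : ∃ c w, Demand s y a c w
  · obtain ⟨c, w, hd⟩ := h1
    obtain ⟨v, κ, hκ, hG⟩ := good_shield hC hy ha hF hno hd
    refine ⟨_, _, _, ?_, hG⟩
    intro v' κ' h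
    simp only [Option.some.injEq, Prod.mk.injEq] at h
    omega
  have hnd : ∀ c w, ¬ Demand s y a c w := fun c w h => h1 ⟨c, w, h⟩
  by_cases h2 : ∃ c k, KillOK s y a c k
  · obtain ⟨c, k, hk⟩ := h2
    obtain ⟨κ, hκ, hG⟩ := good_kill hC hy ha hF hno hnd hk
    refine ⟨_, _, _, ?_, hG⟩
    intro v' κ' h
    simp only [Option.some.injEq, Prod.mk.injEq] at h
    omega
  have hnk : ∀ c k, ¬ KillOK s y a c k := fun c k h => h2 ⟨c, k, h⟩
  by_cases h3 : ∃ c, FEv s y a c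
  · obtain ⟨c, hc⟩ := h3
    obtain ⟨v, κ, rg', hκ, hG⟩ := good_F hC hy ha hF hno hnd hc
    refine ⟨_, _, _, ?_, hG⟩
    intro v' κ' h
    simp only [Option.some.injEq, Prod.mk.injEq] at h
    omega
  have hnF : ∀ c, ¬ FEv s y a c := fun c h => h3 ⟨c, h⟩
  by_cases h4 : Safe (s.b.put y a false) ∧ ∃ c, Hot0 s c ∧ InW c y ∧ y ≠ c ∧
      s.b.col (2 * c - y) = a
  · obtain ⟨hs1, c, h5, h6, h7, h8⟩ := h4
    refine ⟨none, _, _, ?_, good_fixp hC hy ha hno hnd hnk hs1 h5 h6 h7 h8⟩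
    intro v κ h
    exact absurd h (by simp)
  by_cases h5 : ∃ v, (s.b.put y a false).col v = 0 ∧ Conn (s.b.put y a false) y v ∧
      v - y ≤ (200 : ℤ) ∧ y - v ≤ (200 : ℤ) ∧ SafeR (s.b.put y a false) v ∧ ∀ c, HotR s c → ¬ InI s c v
  · obtain ⟨v, e1, e2, e3, e4, e5, e6⟩ := h5
    obtain ⟨κ, hκ, hG⟩ := good_dflt hC hy ha hF hno hnd hnk hnF h4 e1 e2 e3 e4 e5 e6
    refine ⟨_, _, _, ?_, hG⟩
    intro v' κ' h
    simp only [Option.some.injEq, Prod.mk.injEq] at h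
    omega
  have hn5 : ∀ v, (s.b.put y a false).col v = 0 → Conn (s.b.put y a false) y v →
      v - y ≤ (200 : ℤ) → y - v ≤ (200 : ℤ) → SafeR (s.b.put y a false) v → ∃ c, HotR s c ∧ InI s c v := by
    intro v e1 e2 e3 e4 e5
    by_contra hcon
    exact h5 ⟨v, e1, e2, e3, e4, e5, fun c h6 h7 => hcon ⟨c, h6, h7⟩⟩
  obtain ⟨τ, hG⟩ := good_none hC hy ha hno hnd hnk h4 hn5
  refine ⟨none, τ, _, ?_, hG⟩
  intro v κ h
  exact absurd h (by simp)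

end MP583455
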